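import Pool.Agent.Q253.Thin.Common
import Pool.Agent.Q253.Thin.GoldSample

/-!
# Arbitrary families of admissible tuples: common prime factors `q_i` in progression

Let `T` be an ARBITRARY nonempty family of pairs `(D, d)`, where `D` is a set of at most `m` shifts such that `{0} ∪ D` is
admissible and `d ∈ D`; the set may consist of one pair or of all of them. For at least half of the pairs the number of
the primes `p` (in any window) with `p + d` prime and `p + d'` almost prime, `d' ∈ D`, has the expected order of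
magnitude, or there are `k` primes `q_i` in an arithmetic progression with a small difference such that for every `i`
and for a positive proportion of ALL pairs of `T` the number of these `p` with `p + d = q_i p'` has the expected order.

Libraries: `Y840.CT.GenF` (Chen's theorem for systems of shifts), `Y151.HS.FLC` (fundamental lemma in residue classes),
`Y843.HS.Top` (Szemerédi's theorem relative to sifted sets), all starting files.
-/

set_option autoImplicit false

namespace Pool.Agent.Results.MP_485179_nt.ArbitraryFamilies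

open Finset Filter
open Pool.Agent.Y840.CT Pool.Agent.Q253.Thin

/-- the number of the residue classes `n` modulo `q` with `n ∏ (n + d) ≡ 0`, the product over `d ∈ D` -/
def ν (D : Finset ℕ) (q : ℕ) : ℕ :=
  ((insert 0 (D.image (fun d : ℕ => -(d : ℤ)))).image (fun h : ℤ => h % q)).card

/-- `∏ (1 - ν(q) / q)` over the primes `q ≤ X`, which is of the order `𝔖 / (log X) ^ (|D| + 1)` -/
noncomputable def V (D : Finset ℕ) (X : ℕ) : ℝ := ∏ q ∈ (Icc 1 X).filter Nat.Prime, (1 - (ν D q : ℝ) / q)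

open Classical in
/-- the primes `p ∈ (u, v]` such that no `p + d'`, `d' ∈ D`, has a prime factor `≤ X ^ (1/K)` -/
noncomputable def Free (K X u v : ℕ) (D : Finset ℕ) : Finset ℕ :=
  (Ioc u v).filter (fun p => p.Prime ∧
    ∀ d' ∈ D, ∀ q : ℕ, q.Prime → q ∣ p + d' → (X : ℝ) ^ (1 / (K : ℝ)) < q)

open Classical in
/-- the primes of `Free` such that `p + d` is a prime -/
noncomputable def Both (K X u v : ℕ) (D : Finset ℕ) (d : ℕ) : Finset ℕ :=
  (Free K X u v D).filter (fun p => (p + d).Prime)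

open Classical in
/-- the primes of `Free` such that `p + d = q p'` with a prime `p' ≥ q` -/
noncomputable def WithFactor (q K X u v : ℕ) (D : Finset ℕ) (d : ℕ) : Finset ℕ :=
  (Free K X u v D).filter (fun p => ∃ p' : ℕ, p'.Prime ∧ q ≤ p' ∧ p + d = q * p')

/-- the pairs: `D` has at most `m` elements, `{0} ∪ D` is admissible, `d ∈ D` and `1 ≤ d ≤ X` -/
def Admissible (m X : ℕ) (τ : Finset ℕ × ℕ) : Prop :=
  τ.1.card ≤ m ∧ τ.2 ∈ τ.1 ∧ 1 ≤ τ.2 ∧ τ.2 ≤ X ∧ ∀ q : ℕ, q.Prime → ν τ.1 q < q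

/-- the shifts -/
def G (D : Finset ℕ) : Finset ℤ := D.image (fun d : ℕ => -(d : ℤ))

lemma sys {m X : ℕ} {τ : Finset ℕ × ℕ} (h : Admissible m X τ) : SysF m X (fun _ => G τ.1) (-(τ.2 : ℤ)) where
  card q _ := card_image_le.trans h.1
  ne := by
    have := h.2.2.1
    omega
  size := by
    rw [abs_neg, abs_of_nonneg (by positivity)]
    exact_mod_cast h.2.2.2.1
  mem q _ := mem_image_of_mem _ h.2.1
  loc q hq := h.2.2.2.2 q hq

lemma vf_eq (D : Finset ℕ) (X : ℕ) : VF (fun _ => G D) X = V D X := rfl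

lemma good_free {K X u v : ℕ} {τ : Finset ℕ × ℕ} {p : ℕ}
    (hp : p ∈ GoodF K X u v (fun _ => G τ.1) (-(τ.2 : ℤ))) :
    p ∈ Free K X u v τ.1 ∧ (-(τ.2 : ℤ) - p).natAbs = p + τ.2 := by
  classical
  unfold GoodF at hp
  rw [mem_filter] at hp
  obtain ⟨p1, pp, pt, _, pF⟩ := hp
  refine ⟨?_, by omega⟩
  unfold Free
  rw [mem_filter]
  refine ⟨p1, pp, fun d' hd' q hq hd => ?_⟩
  by_contra hcon
  push Not at hcon
  apply pF q hq hcon (-(d' : ℤ)) (mem_image_of_mem _ hd')
  have e : (-(d' : ℤ)) - p = -((p + d' : ℕ) : ℤ) := by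
    push_cast
    ring
  rw [e]
  exact (dvd_neg).2 (by exact_mod_cast hd)

/-- **Arbitrary families of tuples.** For every `m` there are `K` and `c, η > 0` such that for all `k` and `θ > 0` there are
`D₀`, `X₀` such that for all `X ≥ X₀`, all `0 ≤ u < v ≤ X` with `v - u ≥ θ X`, and every nonempty family `T` of
admissible pairs `(D, d)`:

(1) at least half of the pairs `(D, d) ∈ T` satisfy `|Both K X u v D d| ≥ c (v - u) V D X`; or

(2) there are `k` primes `q_i = q + i a > X ^ (1/9)` in an arithmetic progression, `1 ≤ a ≤ log ^ D₀ X`, such that for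
every `i` at least `η |T|` of the pairs `(D, d) ∈ T` satisfy `|WithFactor q_i K X u v D d| ≥ c (v - u) V D X / q_i`. -/
theorem result : ∀ m : ℕ, ∃ (K : ℕ) (c η : ℝ), 1 ≤ K ∧ 0 < c ∧ 0 < η ∧ ∀ (k : ℕ) (θ : ℝ), 0 < θ →
    ∃ D₀ X₀ : ℕ, ∀ X : ℕ, X₀ ≤ X → ∀ u v : ℕ, v ≤ X → θ * X ≤ (v : ℝ) - u →
    ∀ T : Finset (Finset ℕ × ℕ), T.Nonempty → (∀ τ ∈ T, Admissible m X τ) →
      (∃ T' ⊆ T, T.card ≤ 2 * T'.card ∧ ∀ τ ∈ T', c * (((v : ℝ) - u) * V τ.1 X) ≤ (Both K X u v τ.1 τ.2).card) ∨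
      ∃ q a : ℕ, 1 ≤ a ∧ (a : ℝ) ≤ Real.log X ^ D₀ ∧ ∀ i < k, (q + i * a).Prime ∧
        (X : ℝ) ^ (1 / 9 : ℝ) < ((q + i * a : ℕ) : ℝ) ∧
        ∃ T' ⊆ T, η * (T.card : ℝ) ≤ T'.card ∧ ∀ τ ∈ T',
          c * (((v : ℝ) - u) * V τ.1 X / ((q + i * a : ℕ) : ℝ)) ≤ (WithFactor (q + i * a) K X u v τ.1 τ.2).card := by
  classical
  intro m
  obtain ⟨t, ht, c, hc, η, hη, hfam⟩ := familyDich m
  refine ⟨t, c, η / 2, ht, hc, by positivity, ?_⟩
  intro k θ hθ
  obtain ⟨D, X₀, hX₀⟩ := hfam k θ hθ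
  refine ⟨D, max X₀ 1, ?_⟩
  intro X hX u v hv huv T hT hadm
  have hX1 : X₀ ≤ X := (le_max_left _ _).trans hX
  have hXpos : 1 ≤ X := (le_max_right _ _).trans hX
  set J := T.filter (fun τ => c * (((v : ℝ) - u) * V τ.1 X) ≤ ((Both t X u v τ.1 τ.2).card : ℝ)) with hJ
  set I := T.filter (fun τ => ¬ c * (((v : ℝ) - u) * V τ.1 X) ≤ ((Both t X u v τ.1 τ.2).card : ℝ)) with hI
  have hIJ : J.card + I.card = T.card := by
    rw [hJ, hI]
    exact card_filter_add_card_filter_not _
  by_cases hcase : T.card ≤ 2 * J.card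
  · left
    exact ⟨J, filter_subset _ _, hcase, fun τ hτ => (mem_filter.1 hτ).2⟩
  right
  have hTpos : 0 < T.card := card_pos.2 hT
  have hIT : T.card ≤ 2 * I.card := by omega
  have hIne : I.Nonempty := card_pos.1 (by omega)
  have hITr : (T.card : ℝ) ≤ 2 * (I.card : ℝ) := by exact_mod_cast hIT
  obtain ⟨q, a, h1, h2, h3⟩ := hX₀ X hX1 (Finset ℕ × ℕ) I (fun τ => fun _ => G τ.1) (fun τ => -(τ.2 : ℤ)) (fun _ => u)
    (fun _ => v) hIne (by
    intro τ hτ
    rw [hI, mem_filter] at hτ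
    obtain ⟨hτ1, hτ2⟩ := hτ
    refine ⟨sys (hadm τ hτ1), hv, huv, ?_⟩
    rw [vf_eq]
    push Not at hτ2
    refine lt_of_le_of_lt ?_ hτ2
    have : (PF t X u v (fun _ => G τ.1) (-(τ.2 : ℤ))).card ≤ (Both t X u v τ.1 τ.2).card := by
      apply card_le_card
      intro p hp
      unfold PF at hp
      rw [mem_filter] at hp
      obtain ⟨b1, b2⟩ := good_free hp.1
      unfold Both
      rw [mem_filter]
      refine ⟨b1, ?_⟩
      rw [← b2]
      exact hp.2
    exact_mod_cast this)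
  refine ⟨q, a, h1, h2, ?_⟩
  intro i hi
  have h4 := h3 i hi
  set T' := I.filter (fun τ : Finset ℕ × ℕ => q + i * a ∈ Gd c t X u v (fun _ => G τ.1) (-(τ.2 : ℤ))) with hT'
  have hI0 : (0 : ℝ) < I.card := by exact_mod_cast card_pos.2 hIne
  have hpos : 0 < T'.card := by
    have : (0 : ℝ) < (T'.card : ℝ) := lt_of_lt_of_le (by positivity) h4
    exact_mod_cast this
  obtain ⟨n0, hn0⟩ := card_pos.1 hpos
  rw [hT', mem_filter] at hn0
  have hn1 := hn0.2
  unfold Gd at hn1
  rw [mem_filter] at hn1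
  obtain ⟨_, ⟨b1, b2⟩, _, _⟩ := hn1
  refine ⟨b1, b2, T', (filter_subset _ _).trans (filter_subset _ _), ?_, ?_⟩
  · refine le_trans ?_ h4
    have h5 := mul_le_mul_of_nonneg_left hITr (show 0 ≤ η / 2 by positivity)
    linarith
  · intro τ hτ
    rw [hT', mem_filter] at hτ
    obtain ⟨hτI, hτG⟩ := hτ
    unfold Gd at hτG
    rw [mem_filter] at hτG
    have h6 := hτG.2.2.2
    rw [vf_eq] at h6
    refine h6.trans ?_
    have : (RF t X u v (fun _ => G τ.1) (-(τ.2 : ℤ)) (q + i * a)).card ≤ (WithFactor (q + i * a) t X u v τ.1 τ.2).card := by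
      apply card_le_card
      intro p hp
      unfold RF at hp
      rw [mem_filter] at hp
      obtain ⟨hp1, q', hq', hqq', hpq⟩ := hp
      obtain ⟨b1, b2⟩ := good_free hp1
      unfold WithFactor
      rw [mem_filter]
      exact ⟨b1, q', hq', hqq', by rw [← b2]; exact hpq⟩
    exact_mod_cast this

end Pool.Agent.Results.MP_485179_nt.ArbitraryFamilies
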