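import Pool.Agent.Q106.UR.Fin

/-!
# MP_485179_nt: the exact range of uniformity in the sieved models of the primes

The sieved model of level `Q`: a random set `A` which contains the integers `n` coprime to `Q` independently with
probability `(Q / φ(Q)) / log n` (at most `1`), and no others (`IsModel μ (level Q) A`; `Q = 1` is Cramér's model). For
`k` shifts the Hardy-Littlewood asymptotic (with the singular series of level `Q`) holds almost surely uniformly for
all sets of `k` shifts up to `D(x)` if and only if `log D(x) = o((x / log x)^(1/(k+1)))`. At the critical size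
`exp (c (x / log x)^(1/(k+1)))` the limit points of the quotients of the numbers and their predictions are exactly
the `u` with `s (1 - u + u log u) ≤ k c^(k+1)`, for the sets of shifts with singular series `s`.
-/

set_option autoImplicit false

namespace Pool.Agent.Results.MP_485179_nt.ExactRangeOfShifts

open Finset MeasureTheory ProbabilityTheory Filter
open scoped Topology
open Pool.Agent.Q120.GM (IsModel level sing Good)
open Pool.Agent.Q106.UR (NN MM LL YY II Sh)

/-- The number of the `1 ≤ n ≤ x` such that `n` and all `n + h`, `h ∈ H`, are elements of `A`. -/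
noncomputable def count (A : Set ℕ) (H : Finset ℕ) (x : ℕ) : ℝ :=
  ({n : ℕ | 1 ≤ n ∧ n ≤ x ∧ n ∈ A ∧ ∀ h ∈ H, n + h ∈ A}.ncard : ℝ)

/-- The predicted number: the singular series of level `Q` of `{0} ∪ H` times `x` divided by the product of `log x`
and the `log (x + h)`, `h ∈ H`. -/
noncomputable def predicted (Q : ℕ) (H : Finset ℕ) (x : ℕ) : ℝ :=
  sing Q (insert 0 H) * x / (Real.log x * ∏ h ∈ H, Real.log ((x : ℝ) + h))

/-- `(x / log x)^(1/(k+1))` -/
noncomputable def Y (k x : ℕ) : ℝ := ((x : ℝ) / Real.log x) ^ (1 / ((k : ℝ) + 1))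

/-- The rate function `1 - u + u log u`. -/
noncomputable def rate (u : ℝ) : ℝ := 1 - u + u * Real.log u

/-- `H` consists of `k` positive shifts not larger than `D`. -/
def Shifts (k : ℕ) (D : ℝ) (H : Finset ℕ) : Prop := H.card = k ∧ 0 ∉ H ∧ ∀ h ∈ H, (h : ℝ) ≤ D

theorem count_eq {Ω : Type} (A : Ω → Set ℕ) (H : Finset ℕ) (x : ℕ) (ω : Ω) :
    count (A ω) H x = NN A (insert 0 H) x ω := by
  unfold count NN
  rw [Pool.Agent.Q106.UR.nm_card]
  congr 1
  rw [← Set.ncard_coe_finset]
  congr 1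
  ext n
  rw [Finset.mem_coe, Pool.Agent.Q106.UR.mem_oc, mem_Icc]
  constructor
  · rintro ⟨h1, h2, h3, h4⟩
    refine ⟨⟨h1, h2⟩, ?_⟩
    intro b hb
    obtain ⟨h, hh, rfl⟩ := Pool.Agent.Q120.GM.mem_tl.1 hb
    rw [mem_insert] at hh
    rcases hh with rfl | hh
    · exact h3
    · exact h4 h hh
  · rintro ⟨⟨h1, h2⟩, h3⟩
    refine ⟨h1, h2, ?_, fun h hh => ?_⟩
    · exact h3 n (Pool.Agent.Q120.GM.mem_tl.2 ⟨0, mem_insert_self _ _, rfl⟩)
    · exact h3 _ (Pool.Agent.Q120.GM.mem_tl.2 ⟨h, mem_insert_of_mem hh, rfl⟩)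

theorem predicted_eq (Q : ℕ) {H : Finset ℕ} (h0 : 0 ∉ H) (x : ℕ) : predicted Q H x = MM Q (insert 0 H) x := by
  unfold predicted MM LL
  rw [prod_insert h0]
  push_cast
  rw [add_zero]

theorem predicted_pos {Q : ℕ} {H : Finset ℕ} (h0 : 0 ∉ H) {x : ℕ} (hx : 1 ≤ Real.log x)
    (hs : 0 < sing Q (insert 0 H)) : 0 < predicted Q H x := by
  rw [predicted_eq Q h0]
  unfold MM
  have h1 := Pool.Agent.Q106.UR.LL_pos (S := insert 0 H) hx
  have hx0 : (0 : ℝ) < x := by
    rcases Nat.eq_zero_or_pos x with h0 | h0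
    · rw [h0] at hx
      norm_num at hx
    · exact_mod_cast h0
  positivity

/-- An admissible set of shifts. -/
theorem exists_shifts {Q : ℕ} (hQ : 1 ≤ Q) (k : ℕ) : ∃ H : Finset ℕ, H.card = k ∧ 0 ∉ H ∧ 0 < sing Q (insert 0 H) := by
  refine ⟨(range k).image (fun i => Q * (i + 1)), ?_, ?_, ?_⟩
  · rw [card_image_of_injective, card_range]
    intro i j h
    have h1 : i + 1 = j + 1 := Nat.eq_of_mul_eq_mul_left hQ h
    omega
  · intro h
    rw [mem_image] at h
    obtain ⟨i, _, hi⟩ := h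
    have := Nat.mul_pos hQ (Nat.succ_pos i)
    have e : i.succ = i + 1 := rfl
    rw [e] at this
    omega
  · have hq := Pool.Agent.Q120.GM.qq_pos hQ
    rw [Pool.Agent.Q120.GM.sing_eq]
    have hQ0 : (0 : ℝ) < Q := by exact_mod_cast hQ
    have hc : 0 < Pool.Agent.Q120.GM.cc Q (insert 0 ((range k).image (fun i => Q * (i + 1)))) := by
      unfold Pool.Agent.Q120.GM.cc
      rw [card_pos]
      by_cases h1 : Q = 1
      · refine ⟨0, ?_⟩
        rw [mem_filter, mem_range]
        refine ⟨by omega, fun h _ => ?_⟩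
        rw [h1]
        exact Nat.coprime_one_right _
      · refine ⟨1, ?_⟩
        rw [mem_filter, mem_range]
        refine ⟨by omega, fun h hh => ?_⟩
        rw [mem_insert, mem_image] at hh
        rcases hh with rfl | ⟨i, _, rfl⟩
        · exact Nat.coprime_one_left _
        · rw [Nat.coprime_add_mul_left_left]
          exact Nat.coprime_one_left _
    have hc' : (0 : ℝ) < Pool.Agent.Q120.GM.cc Q (insert 0 ((range k).image (fun i => Q * (i + 1)))) := by exact_mod_cast hc
    positivity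

theorem small_c (k : ℕ) {b : ℝ} (hb : 0 < b) : ∃ c : ℝ, 0 < c ∧ k * c ^ (k + 1) < b := by
  refine ⟨min 1 (b / (k + 1)), lt_min one_pos (by positivity), ?_⟩
  obtain ⟨c, hc⟩ : ∃ c, c = min 1 (b / ((k : ℝ) + 1)) := ⟨_, rfl⟩
  have hc0 : 0 < c := by rw [hc]; exact lt_min one_pos (by positivity)
  have hc1 : c ≤ 1 := by rw [hc]; exact min_le_left _ _
  have hc2 : c ≤ b / (k + 1) := by rw [hc]; exact min_le_right _ _
  rw [← hc]
  have h1 : c ^ (k + 1) ≤ c := pow_le_of_le_one hc0.le hc1 (by omega)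
  rw [le_div_iff₀ (by positivity)] at hc2
  have h2 : (k : ℝ) * c ^ (k + 1) ≤ k * c := mul_le_mul_of_nonneg_left h1 (Nat.cast_nonneg k)
  nlinarith

/-- **The exact range of the shifts.** -/
theorem result (Q : ℕ) (hQ : 1 ≤ Q) :
    (∃ (Ω : Type) (_ : MeasurableSpace Ω) (μ : Measure Ω) (_ : IsProbabilityMeasure μ) (A : Ω → Set ℕ),
      IsModel μ (level Q) A) ∧
    ∀ (Ω : Type) [MeasurableSpace Ω] (μ : Measure Ω) [IsProbabilityMeasure μ] (A : Ω → Set ℕ),
      IsModel μ (level Q) A → ∀ᵐ ω ∂μ, ∀ k : ℕ, 1 ≤ k →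
      -- below the critical size there are no deviations
      (∀ c s u : ℝ, 0 < c → 0 < s → k * c ^ (k + 1) < s * rate u →
        (1 < u → ∀ᶠ x : ℕ in atTop, ∀ H : Finset ℕ, Shifts k (Real.exp (c * Y k x)) H → s ≤ sing Q (insert 0 H) →
          count (A ω) H x < u * predicted Q H x) ∧
        (0 ≤ u → u < 1 → ∀ᶠ x : ℕ in atTop, ∀ H : Finset ℕ, Shifts k (Real.exp (c * Y k x)) H →
          s ≤ sing Q (insert 0 H) → u * predicted Q H x < count (A ω) H x)) ∧
      -- above it there are all deviations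
      (∀ (H₀ : Finset ℕ) (c u ε : ℝ), H₀.card = k → 0 ∉ H₀ → 0 < sing Q (insert 0 H₀) → 0 < c → 0 ≤ u → 0 < ε →
        sing Q (insert 0 H₀) * rate u < k * c ^ (k + 1) →
        ∀ᶠ x : ℕ in atTop, ∃ H : Finset ℕ, Shifts k (Real.exp (c * Y k x)) H ∧
          (∀ n, Good Q (insert 0 H) n ↔ Good Q (insert 0 H₀) n) ∧ sing Q (insert 0 H) = sing Q (insert 0 H₀) ∧
          |count (A ω) H x - u * predicted Q H x| ≤ ε * predicted Q H x ∧ (u = 0 → count (A ω) H x = 0)) ∧
      -- the range of uniformity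
      (∀ D : ℕ → ℝ, (∀ x, 1 ≤ D x) →
        ((∀ ε > 0, ∀ᶠ x : ℕ in atTop, ∀ H : Finset ℕ, Shifts k (D x) H → 0 < sing Q (insert 0 H) →
          |count (A ω) H x - predicted Q H x| ≤ ε * predicted Q H x) ↔
        Tendsto (fun x => Real.log (D x) / Y k x) atTop (𝓝 0))) ∧
      -- the range of the question
      (∀ ε > 0, ∀ᶠ x : ℕ in atTop, ∀ H : Finset ℕ, H.card = k →
        (∀ h ∈ H, 2 ≤ h ∧ (h : ℝ) ≤ Real.log x ^ (k + 1)) → 0 < sing Q (insert 0 H) →
        |count (A ω) H x - sing Q (insert 0 H) * (x / Real.log x ^ (k + 1))| ≤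
          ε * (sing Q (insert 0 H) * (x / Real.log x ^ (k + 1)))) := by
  refine ⟨⟨ℕ → Bool, inferInstance, Pool.Agent.Q120.GM.prodMeasure (level Q), inferInstance,
    Pool.Agent.Q120.GM.trueSet, Pool.Agent.Q120.GM.isModel (level Q) (Pool.Agent.Q120.GM.level_nonneg Q)
      (Pool.Agent.Q120.GM.level_le_one Q)⟩, ?_⟩
  intro Ω _ μ _ A hA
  have hQ0 : (0 : ℝ) < Q := by exact_mod_cast hQ
  filter_upwards [Pool.Agent.Q106.UR.all_up hA hQ, Pool.Agent.Q106.UR.all_dn hA hQ,
    Pool.Agent.Q106.UR.all_ex hA hQ] with ω hup hdn hex k hk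
  have hYY : ∀ x, Y k x = YY k x := fun x => rfl
  have hII : ∀ u, rate u = II u := fun u => rfl
  have P1 : ∀ c s u : ℝ, 0 < c → 0 < s → k * c ^ (k + 1) < s * rate u →
        (1 < u → ∀ᶠ x : ℕ in atTop, ∀ H : Finset ℕ, Shifts k (Real.exp (c * Y k x)) H → s ≤ sing Q (insert 0 H) →
          count (A ω) H x < u * predicted Q H x) ∧
        (0 ≤ u → u < 1 → ∀ᶠ x : ℕ in atTop, ∀ H : Finset ℕ, Shifts k (Real.exp (c * Y k x)) H →
          s ≤ sing Q (insert 0 H) → u * predicted Q H x < count (A ω) H x) := by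
    intro c s u hc hs hcr
    constructor
    · intro hu
      filter_upwards [hup k c s u hc hs hu hcr] with x hx H hH hs'
      rw [count_eq, predicted_eq Q hH.2.1]
      exact hx H ⟨hH.1, hH.2.1, hH.2.2, hs'⟩
    · intro hu0 hu
      filter_upwards [hdn k c s u hc hs hu0 hu hcr] with x hx H hH hs'
      rw [count_eq, predicted_eq Q hH.2.1]
      exact hx H ⟨hH.1, hH.2.1, hH.2.2, hs'⟩
  have P2 : ∀ (H₀ : Finset ℕ) (c u ε : ℝ), H₀.card = k → 0 ∉ H₀ → 0 < sing Q (insert 0 H₀) → 0 < c → 0 ≤ u → 0 < ε →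
        sing Q (insert 0 H₀) * rate u < k * c ^ (k + 1) →
        ∀ᶠ x : ℕ in atTop, ∃ H : Finset ℕ, Shifts k (Real.exp (c * Y k x)) H ∧
          (∀ n, Good Q (insert 0 H) n ↔ Good Q (insert 0 H₀) n) ∧ sing Q (insert 0 H) = sing Q (insert 0 H₀) ∧
          |count (A ω) H x - u * predicted Q H x| ≤ ε * predicted Q H x ∧ (u = 0 → count (A ω) H x = 0) := by
    intro H₀ c u ε h1 h2 h3 h4 h5 h6 h7
    filter_upwards [hex k H₀ c u ε hk h1 h2 h3 h4 h5 h7 h6] with x hx
    obtain ⟨H, ⟨e1, e2, e3, _⟩, e4, e5, e6, e7⟩ := hx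
    refine ⟨H, ⟨e1, e2, e3⟩, e4, e5, ?_, ?_⟩
    · rw [count_eq, predicted_eq Q e2]
      exact e6
    · intro h
      rw [count_eq]
      exact e7 h
  have P3 : ∀ D : ℕ → ℝ, (∀ x, 1 ≤ D x) → Tendsto (fun x => Real.log (D x) / Y k x) atTop (𝓝 0) →
      ∀ ε > 0, ∀ᶠ x : ℕ in atTop, ∀ H : Finset ℕ, Shifts k (D x) H → 0 < sing Q (insert 0 H) →
          |count (A ω) H x - predicted Q H x| ≤ ε * predicted Q H x := by
    intro D hD hlim ε hε
    obtain ⟨θ, hθ⟩ : ∃ θ, θ = min ε (1 / 2) := ⟨_, rfl⟩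
    have hθ0 : 0 < θ := by rw [hθ]; exact lt_min hε (by norm_num)
    have hθ1 : θ ≤ ε := by rw [hθ]; exact min_le_left _ _
    have hθ2 : θ ≤ 1 / 2 := by rw [hθ]; exact min_le_right _ _
    have hI1 : 0 < rate (1 + θ) := Pool.Agent.Q106.UR.II_pos (by linarith) (by linarith)
    have hI2 : 0 < rate (1 - θ) := Pool.Agent.Q106.UR.II_pos (by linarith) (by linarith)
    have hs0 : (0 : ℝ) < 1 / Q := by positivity
    obtain ⟨c, hc0, hc⟩ := small_c k (show 0 < min (1 / (Q : ℝ) * rate (1 + θ)) (1 / (Q : ℝ) * rate (1 - θ)) by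
      exact lt_min (by positivity) (by positivity))
    have h1 := (P1 c (1 / Q) (1 + θ) hc0 hs0 (hc.trans_le (min_le_left _ _))).1 (by linarith)
    have h2 := (P1 c (1 / Q) (1 - θ) hc0 hs0 (hc.trans_le (min_le_right _ _))).2 (by linarith) (by linarith)
    have h3 := hlim.eventually_le_const hc0
    filter_upwards [h1, h2, h3, (Pool.Agent.Q106.UR.YY_tendsto k).eventually_gt_atTop 0,
      Pool.Agent.Q106.UR.log_tendsto.eventually_ge_atTop 1] with x h1 h2 h3 h4 h5 H hH hs
    have hY0 : 0 < Y k x := h4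
    rw [div_le_iff₀ hY0] at h3
    have hDx : D x ≤ Real.exp (c * Y k x) := by
      have h6 : 0 < D x := lt_of_lt_of_le one_pos (hD x)
      calc D x = Real.exp (Real.log (D x)) := (Real.exp_log h6).symm
        _ ≤ _ := Real.exp_le_exp.2 h3
    have hH' : Shifts k (Real.exp (c * Y k x)) H := ⟨hH.1, hH.2.1, fun h hh => (hH.2.2 h hh).trans hDx⟩
    have hs' := Pool.Agent.Q106.UR.sing_ge hQ hs
    have e1 := h1 H hH' hs'
    have e2 := h2 H hH' hs'
    have hp := predicted_pos (Q := Q) hH.2.1 h5 hs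
    rw [abs_le]
    constructor
    · nlinarith
    · nlinarith
  refine ⟨P1, P2, fun D hD => ⟨fun hU => ?_, P3 D hD⟩, ?_⟩
  · by_contra hcon
    -- the quotient is large again and again
    have hfreq : ∃ c > 0, ∃ᶠ x : ℕ in atTop, c ≤ Real.log (D x) / Y k x := by
      by_contra hno
      push Not at hno
      apply hcon
      rw [Metric.tendsto_atTop']
      intro ε hε
      have h1 := hno ε hε
      obtain ⟨N, hN⟩ := eventually_atTop.1 h1
      refine ⟨N, fun x hx => ?_⟩
      have h2 := hN x hx.le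
      rw [dist_zero_right, Real.norm_of_nonneg]
      · exact h2
      · exact div_nonneg (Real.log_nonneg (hD x)) (Pool.Agent.Q106.UR.YY_nonneg k x)
    obtain ⟨c, hc0, hfr⟩ := hfreq
    obtain ⟨H₀, hH1, hH2, hH3⟩ := exists_shifts hQ k
    -- a deviation
    have hk0 : (0 : ℝ) < k := by exact_mod_cast hk
    obtain ⟨u, hu1, hu⟩ : ∃ u : ℝ, 1 < u ∧ sing Q (insert 0 H₀) * rate u < k * c ^ (k + 1) := by
      have h1 : Tendsto (fun t => sing Q (insert 0 H₀) * II t) (𝓝 1) (𝓝 (sing Q (insert 0 H₀) * II 1)) :=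
        (continuous_const.mul Pool.Agent.Q106.UR.II_cont).tendsto 1
      have h2 : II 1 = 0 := by
        unfold II
        norm_num
      rw [h2, mul_zero] at h1
      have h3 := h1.eventually_lt_const (show 0 < k * c ^ (k + 1) by positivity)
      obtain ⟨r, hr, h4⟩ := Metric.eventually_nhds_iff.1 h3
      refine ⟨1 + r / 2, by linarith, h4 ?_⟩
      rw [Real.dist_eq, add_sub_cancel_left, abs_of_pos (by positivity)]
      linarith
    have h1 := P2 H₀ c u ((u - 1) / 2) hH1 hH2 hH3 hc0 (by linarith) (by linarith) hu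
    have h2 := hU ((u - 1) / 4) (by linarith)
    obtain ⟨x, hx1, hx2, hx3, hx4, hx5⟩ := (hfr.and_eventually (h1.and (h2.and
      ((Pool.Agent.Q106.UR.log_tendsto.eventually_ge_atTop 1).and
        ((Pool.Agent.Q106.UR.YY_tendsto k).eventually_gt_atTop 0))))).exists
    have hY0 : 0 < Y k x := hx5
    rw [le_div_iff₀ hY0] at hx1
    have hDx : Real.exp (c * Y k x) ≤ D x := by
      have h6 : 0 < D x := lt_of_lt_of_le one_pos (hD x)
      calc Real.exp (c * Y k x) ≤ Real.exp (Real.log (D x)) := Real.exp_le_exp.2 hx1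
        _ = D x := Real.exp_log h6
    obtain ⟨H, hH, _, hsing, hdev, _⟩ := hx2
    have hs : 0 < sing Q (insert 0 H) := by rw [hsing]; exact hH3
    have hdev' := hx3 H ⟨hH.1, hH.2.1, fun h hh => (hH.2.2 h hh).trans hDx⟩ hs
    have hp := predicted_pos (Q := Q) hH.2.1 hx4 hs
    rw [abs_le] at hdev hdev'
    nlinarith [hdev.1, hdev'.2]
  · intro ε hε
    obtain ⟨δ, hδ0, hδ1, _, hδ⟩ := Pool.Agent.Q106.UR.exists_eps k (B := 0) (show 0 < ε / 2 by positivity)
    obtain ⟨D, hD⟩ : ∃ D : ℕ → ℝ, D = fun x : ℕ => max 1 (Real.log (x : ℝ) ^ (k + 1)) := ⟨_, rfl⟩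
    have hD1 : ∀ x, 1 ≤ D x := fun x => by rw [hD]; exact le_max_left _ _
    have hlim : Tendsto (fun x => Real.log (D x) / Y k x) atTop (𝓝 0) := by
      rw [Metric.tendsto_atTop']
      intro η hη
      have h1 := Pool.Agent.Q106.UR.YY_log k (2 * (k + 1) / η)
      have h2 := Pool.Agent.Q106.UR.log_tendsto.eventually_ge_atTop 1
      obtain ⟨N, hN⟩ := eventually_atTop.1 (h1.and h2)
      refine ⟨N, fun x hx => ?_⟩
      obtain ⟨h3, h4⟩ := hN x hx.le
      have hl : 0 < Real.log x := by linarith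
      have hY0 : 0 < Y k x := by
        show 0 < YY k x
        refine lt_of_lt_of_le ?_ h3
        positivity
      have hDx : D x = Real.log x ^ (k + 1) := by
        rw [hD]
        exact max_eq_right (one_le_pow₀ h4)
      rw [dist_zero_right, Real.norm_of_nonneg (div_nonneg (Real.log_nonneg (hD1 x)) hY0.le), div_lt_iff₀ hY0, hDx,
        Real.log_pow]
      have h5 : Real.log (Real.log x) ≤ Real.log x := by
        have := Real.log_le_sub_one_of_pos hl
        linarith
      have h6 : 2 * (k + 1) / η * Real.log x ≤ Y k x := h3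
      have h7 : 2 * ((k : ℝ) + 1) * Real.log x ≤ η * Y k x := by
        have h8 := mul_le_mul_of_nonneg_left h6 hη.le
        have h9 : η * (2 * (k + 1) / η * Real.log x) = 2 * ((k : ℝ) + 1) * Real.log x := by field_simp
        linarith
      push_cast
      have h8 : ((k : ℝ) + 1) * Real.log (Real.log x) ≤ (k + 1) * Real.log x := mul_le_mul_of_nonneg_left h5 (by positivity)
      have h9 : 0 < ((k : ℝ) + 1) * Real.log x := by positivity
      linarith
    filter_upwards [P3 D hD1 hlim (ε / 2) (by positivity), Pool.Agent.Q106.UR.log_tendsto.eventually_ge_atTop 1,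
      Pool.Agent.Q106.UR.log_tendsto.eventually_ge_atTop (Real.log 2 / δ), Pool.Agent.Q106.UR.ev_log_pow (k + 1) one_pos]
      with x h1 h2 h3 h4 H hH1 hH2 hs
    have h0 : 0 ∉ H := by
      intro h
      have := (hH2 0 h).1
      omega
    have hx0 : (0 : ℝ) < x := by
      rcases Nat.eq_zero_or_pos x with h0 | h0
      · rw [h0] at h2
        norm_num at h2
      · exact_mod_cast h0
    have hl : 0 < Real.log x := by linarith
    have e1 := h1 H ⟨hH1, h0, fun h hh => (hH2 h hh).2.trans (by rw [hD]; exact le_max_right _ _)⟩ hs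
    have hp := predicted_pos (Q := Q) h0 h2 hs
    obtain ⟨P, hP⟩ : ∃ P, P = sing Q (insert 0 H) * (x / Real.log x ^ (k + 1)) := ⟨_, rfl⟩
    rw [← hP]
    have hP0 : 0 < P := by rw [hP]; positivity
    have hprod1 : Real.log x ^ k ≤ ∏ h ∈ H, Real.log ((x : ℝ) + h) := by
      rw [← hH1, ← prod_const]
      refine prod_le_prod (fun _ _ => hl.le) (fun h _ => Real.log_le_log hx0 ?_)
      have : (0 : ℝ) ≤ h := Nat.cast_nonneg h
      linarith
    have hprod2 : ∏ h ∈ H, Real.log ((x : ℝ) + h) ≤ ((1 + δ) * Real.log x) ^ k := by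
      rw [← hH1, ← prod_const]
      refine prod_le_prod (fun h _ => ?_) (fun h hh => ?_)
      · refine Real.log_nonneg ?_
        have : (0 : ℝ) ≤ h := Nat.cast_nonneg h
        have := Real.log_le_sub_one_of_pos hx0
        linarith
      · have h5 : (h : ℝ) ≤ x := by
          have := (hH2 h hh).2
          linarith
        have h6 : Real.log ((x : ℝ) + h) ≤ Real.log (2 * x) := Real.log_le_log (by
          have : (0 : ℝ) ≤ h := Nat.cast_nonneg h
          linarith) (by linarith)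
        rw [Real.log_mul (by norm_num) hx0.ne'] at h6
        rw [div_le_iff₀ hδ0] at h3
        linarith
    have hp1 : predicted Q H x ≤ P := by
      rw [hP, mul_div_assoc']
      unfold predicted
      refine div_le_div_of_nonneg_left (by positivity) (by positivity) ?_
      rw [pow_succ, mul_comm]
      exact mul_le_mul_of_nonneg_left hprod1 hl.le
    have hp2 : P ≤ (1 + δ) ^ k * predicted Q H x := by
      have hpr : 0 < ∏ h ∈ H, Real.log ((x : ℝ) + h) := lt_of_lt_of_le (by positivity) hprod1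
      rw [hP]
      unfold predicted
      rw [mul_div_assoc', mul_div_assoc', div_le_div_iff₀ (by positivity) (by positivity)]
      have h5 := mul_le_mul_of_nonneg_left hprod2 (show 0 ≤ sing Q (insert 0 H) * x * Real.log x by positivity)
      calc sing Q (insert 0 H) * x * (Real.log x * ∏ h ∈ H, Real.log ((x : ℝ) + h)) =
          sing Q (insert 0 H) * x * Real.log x * ∏ h ∈ H, Real.log ((x : ℝ) + h) := by ring
        _ ≤ sing Q (insert 0 H) * x * Real.log x * ((1 + δ) * Real.log x) ^ k := h5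
        _ = (1 + δ) ^ k * (sing Q (insert 0 H) * x) * Real.log x ^ (k + 1) := by
          rw [mul_pow]
          ring
    have hδk : (1 + δ) ^ k ≤ 1 + ε / 2 := by linarith
    rw [abs_le] at e1 ⊢
    constructor <;> nlinarith [e1.1, e1.2]

end Pool.Agent.Results.MP_485179_nt.ExactRangeOfShifts
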