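import Pool.Agent.Q236.SH.Pat

set_option autoImplicit false

/-!
# The uniform Hardy-Littlewood asymptotic for constellations of prime values with shifts up to any power of the logarithm

Let `P_i = F_i + c_{i0} + c_{i1} x + … + c_{i,d-1} x^(d-1)`, `i = 1, …, m`, with ARBITRARY `F_i ∈ ℤ[x]` of bounded degree
and `m ≤ log^E X`, where the coefficients `c_{ij}` run independently through the integers of intervals of length at
least `X / log^C X`, and all values at the arguments up to `log^E X` have the size `X` up to powers of `log X`.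
A constellation is a set `S` of pairs `(i, h)`; the Hardy-Littlewood conjecture predicts how often ALL the numbers
`P_i(k + h)`, `(i, h) ∈ S`, are prime at the same time (`m = 1`, `F_1 = x` without random coefficients: prime tuples).

For all but a proportion `log^(-B) X` of the families `(P_1, …, P_m)` the following holds AT THE SAME TIME for ALL
constellations `S` with at most `N` points and shifts `h` up to `log^E X`, for all progressions `b + q k` and for all
intervals `(a, a + h]` below `log^E X` with `h ≥ log^(|S| + η) X`: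

* UNIFORM ASYMPTOTIC: the number of the `k` in `(a, a + h]` such that all the `P_i(b + q k + r)`, `(i, r) ∈ S`, are
  PRIME is `(1 + O*(ε)) 𝔖 h / log^|S| X`, where `𝔖` is the singular series of the constellation;
* if the constellation has no fixed prime divisor, it occurs in each of these intervals;
* EXACT PATTERNS (intervals with `h ≥ log^(|S| + 1 + η) X`): for every set `J` of indices and every length `R` with
  `|J| (R + 1) ≤ log^(1 - δ) X` and `S ⊆ J × [0, R]`, the number of the `k` in `(a, a + h]` such that the primes among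
  the `P_i(b + q k + r)`, `i ∈ J`, `0 ≤ r ≤ R`, are EXACTLY those with `(i, r) ∈ S`, is `(1 + O*(ε)) 𝔖 h / log^|S| X`:
  every locally possible pattern of CONSECUTIVE prime arguments occurs, with the predicted frequency;
* if the constellation has no fixed prime divisor, the exact pattern occurs in each of these intervals.

The number `d ≥ 2 s (N + 1)` of the random coefficients: `s` with `s η / 8 > B + 5 + (2 E + 1) (N + 1) + 4 (E + 1)`.
-/

namespace Pool.Agent.Results.MP_485179_nt.ValuesOfRandomPolynomials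

open Finset Filter

/-- The value at `k` of `F + c_0 + c_1 x + … + c_{d-1} x^(d-1)`. -/
noncomputable def value {d : ℕ} (F : Polynomial ℤ) (c : Fin d → ℤ) (k : ℕ) : ℤ :=
  F.eval (k : ℤ) + ∑ j, c j * (k : ℤ) ^ (j : ℕ)

/-- The arrays of coefficients `Z i j < c i j ≤ Z i j + Y i j`. -/
noncomputable def Arrays {m d : ℕ} (Z : Fin m → Fin d → ℤ) (Y : Fin m → Fin d → ℕ) : Finset (Fin m → Fin d → ℤ) :=
  Fintype.piFinset fun i => Fintype.piFinset fun j => Ioc (Z i j) (Z i j + Y i j)

/-- The value of the constellation point `x = (i, r)` at `n`: the number `P_i(n + r)`. -/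
noncomputable def point {m d : ℕ} (F : Fin m → Polynomial ℤ) (c : Fin m → Fin d → ℤ) (n : ℕ) (x : Fin m × ℕ) : ℤ :=
  value (F x.1) (c x.1) (n + x.2)

open Classical in
/-- The number of the `k` with `a < k ≤ a + h` such that all the `P_i(b + q k + r)`, `(i, r) ∈ S`, are primes. -/
noncomputable def constellations {m d : ℕ} (F : Fin m → Polynomial ℤ) (c : Fin m → Fin d → ℤ) (S : Finset (Fin m × ℕ))
    (b q a h : ℕ) : ℕ :=
  ((Ioc a (a + h)).filter (fun k => ∀ x ∈ S, (point F c (b + q * k) x).toNat.Prime)).card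

open Classical in
/-- The number of the `k` with `a < k ≤ a + h` such that, for `i ∈ J` and `0 ≤ r ≤ R`, the number `P_i(b + q k + r)` is
prime if and only if `(i, r) ∈ S`. -/
noncomputable def patterns {m d : ℕ} (F : Fin m → Polynomial ℤ) (c : Fin m → Fin d → ℤ) (J : Finset (Fin m)) (R : ℕ)
    (S : Finset (Fin m × ℕ)) (b q a h : ℕ) : ℕ :=
  ((Ioc a (a + h)).filter (fun k => ∀ x ∈ J ×ˢ range (R + 1), ((point F c (b + q * k) x).toNat.Prime ↔ x ∈ S))).card

open Classical in
/-- The number of the residues `k` modulo `p` such that `p` divides one of the `P_i(b + q k + r)`, `(i, r) ∈ S`. -/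
noncomputable def omega {m d : ℕ} (F : Fin m → Polynomial ℤ) (c : Fin m → Fin d → ℤ) (S : Finset (Fin m × ℕ))
    (b q p : ℕ) : ℕ :=
  ((range p).filter (fun k => ∃ x ∈ S, (p : ℤ) ∣ point F c (b + q * k) x)).card

/-- The singular series: the product of `(1 - ω(p) / p) / (1 - 1 / p)^|S|` over the primes `p ≤ z`. -/
noncomputable def singular {m d : ℕ} (F : Fin m → Polynomial ℤ) (c : Fin m → Fin d → ℤ) (S : Finset (Fin m × ℕ))
    (b q z : ℕ) : ℝ :=
  ∏ p ∈ (Icc 1 z).filter Nat.Prime, ((1 - (omega F c S b q p : ℝ) / p) / (1 - 1 / (p : ℝ)) ^ S.card)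

/-- No prime `p ≤ z` divides one of the values of the constellation for every `k`. -/
def Possible {m d : ℕ} (F : Fin m → Polynomial ℤ) (c : Fin m → Fin d → ℤ) (S : Finset (Fin m × ℕ)) (b q z : ℕ) : Prop :=
  ∀ p : ℕ, p.Prime → p ≤ z → ∃ k : ℕ, ∀ x ∈ S, ¬ (p : ℤ) ∣ point F c (b + q * k) x

/-- The uniform asymptotic for all constellations with at most `N` points and the exact patterns. -/
def Regular (N E : ℕ) (η δ ε : ℝ) (z X : ℕ) {m d : ℕ} (F : Fin m → Polynomial ℤ) (c : Fin m → Fin d → ℤ) : Prop :=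
  ∀ (S : Finset (Fin m × ℕ)) (b q a h : ℕ), 1 ≤ S.card → S.card ≤ N → 1 ≤ q →
    -- the constellations
    ((∀ x ∈ S, ((b + q * (a + h) + x.2 : ℕ) : ℝ) ≤ Real.log X ^ E) → Real.log X ^ ((S.card : ℝ) + η) ≤ h →
      |(constellations F c S b q a h : ℝ) - singular F c S b q z * (h / Real.log X ^ S.card)| ≤
        ε * (singular F c S b q z * (h / Real.log X ^ S.card)) ∧
      (Possible F c S b q z → ∃ k : ℕ, a < k ∧ k ≤ a + h ∧ ∀ x ∈ S, (point F c (b + q * k) x).toNat.Prime)) ∧
    -- the exact patterns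
    (∀ (J : Finset (Fin m)) (R : ℕ), S ⊆ J ×ˢ range (R + 1) → (J.card : ℝ) * (R + 1) ≤ Real.log X ^ (1 - δ) →
      ((b + q * (a + h) + R : ℕ) : ℝ) ≤ Real.log X ^ E → Real.log X ^ ((S.card : ℝ) + 1 + η) ≤ h →
      |(patterns F c J R S b q a h : ℝ) - singular F c S b q z * (h / Real.log X ^ S.card)| ≤
        ε * (singular F c S b q z * (h / Real.log X ^ S.card)) ∧
      (Possible F c S b q z → ∃ k : ℕ, a < k ∧ k ≤ a + h ∧ ∀ i ∈ J, ∀ r ≤ R,
        ((value (F i) (c i) (b + q * k + r)).toNat.Prime ↔ (i, r) ∈ S)))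

open Pool.Agent.Q236.SH
open Pool.Agent.Q236.RP (Box eval_mod ev_log_ge)
open Pool.Agent.Q236.CG (BA evm)

lemma arrays_eq {m d : ℕ} (Z : Fin m → Fin d → ℤ) (Y : Fin m → Fin d → ℕ) : Arrays Z Y = BA Z Y := rfl

lemma cnt_eq {m d : ℕ} (F : Fin m → Polynomial ℤ) (c : Fin m → Fin d → ℤ) (S : Finset (Fin m × ℕ)) (b q a h : ℕ) :
    cntF F c S b q a h = constellations F c S b q a h := rfl

lemma ex_eq {m d : ℕ} (F : Fin m → Polynomial ℤ) (c : Fin m → Fin d → ℤ) (J : Finset (Fin m)) (R : ℕ)
    (S : Finset (Fin m × ℕ)) (b q a h : ℕ) : exF F c J R S b q a h = patterns F c J R S b q a h := rfl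

lemma sg_eq {m d : ℕ} (F : Fin m → Polynomial ℤ) (c : Fin m → Fin d → ℤ) (S : Finset (Fin m × ℕ)) (b q z : ℕ) :
    sgF F c S b q z = singular F c S b q z := rfl

lemma sing_pos {m d : ℕ} (F : Fin m → Polynomial ℤ) (c : Fin m → Fin d → ℤ) (S : Finset (Fin m × ℕ)) (b q z : ℕ)
    (h : Possible F c S b q z) : 0 < singular F c S b q z := by
  classical
  unfold singular
  apply Finset.prod_pos
  intro p hp
  rw [mem_filter, mem_Icc] at hp
  obtain ⟨⟨_, hpz⟩, hpp⟩ := hp
  have hp0 : (0 : ℝ) < p := by exact_mod_cast hpp.pos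
  have hp1 : (1 : ℝ) < p := by exact_mod_cast hpp.one_lt
  obtain ⟨k, hk⟩ := h p hpp hpz
  have hlt : omega F c S b q p < p := by
    unfold omega
    have h1 : ((range p).filter (fun k => ∃ x ∈ S, (p : ℤ) ∣ point F c (b + q * k) x)) ⊂ range p := by
      rw [Finset.ssubset_iff_of_subset (filter_subset _ _)]
      refine ⟨k % p, mem_range.2 (Nat.mod_lt _ hpp.pos), ?_⟩
      rw [mem_filter, not_and]
      rintro _ ⟨x, hx, hd⟩
      apply hk x hx
      have hkm : b + q * (k % p) + x.2 ≡ b + q * k + x.2 [MOD p] :=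
        Nat.ModEq.add_right x.2 (Nat.ModEq.add_left b (Nat.ModEq.mul_left q (Nat.mod_modEq k p)))
      have h2 : ∀ j : ℕ, (p : ℤ) ∣ ((b + q * (k % p) + x.2 : ℕ) : ℤ) ^ j - ((b + q * k + x.2 : ℕ) : ℤ) ^ j := by
        intro j
        have h3 : (p : ℤ) ∣ ((b + q * (k % p) + x.2 : ℕ) : ℤ) - ((b + q * k + x.2 : ℕ) : ℤ) := Nat.modEq_iff_dvd.1 hkm.symm
        exact h3.trans (sub_dvd_pow_sub_pow _ _ _)
      have h4 : (p : ℤ) ∣ point F c (b + q * (k % p)) x - point F c (b + q * k) x := by
        unfold point value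
        have e1 : ∀ x y u v : ℤ, x + u - (y + v) = (x - y) + (u - v) := by intros; ring
        rw [e1]
        apply dvd_add
        · exact eval_mod _ p _ _ hkm
        · rw [← Finset.sum_sub_distrib]
          apply Finset.dvd_sum
          intro j _
          rw [← mul_sub]
          exact Dvd.dvd.mul_left (h2 _) _
      have h6 := dvd_sub hd h4
      rwa [sub_sub_cancel] at h6
    have h6 := card_lt_card h1
    rwa [card_range] at h6
  apply div_pos
  · rw [sub_pos, div_lt_one hp0]
    exact_mod_cast hlt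
  · apply pow_pos
    rw [sub_pos, div_lt_one hp0]
    exact hp1

lemma pos_of_main (n : ℕ) (ε G : ℝ) (hε : ε ≤ 1 / 2) (hG : 0 < G) (h : |(n : ℝ) - G| ≤ ε * G) : 0 < n := by
  have h1 := (abs_le.1 h).1
  have h2 : ε * G ≤ 1 / 2 * G := mul_le_mul_of_nonneg_right hε hG.le
  have h3 : (0 : ℝ) < n := by linarith
  exact_mod_cast h3

open Classical in
/-- **The uniform Hardy-Littlewood asymptotic for all constellations of values of random polynomials and the
frequency of all exact patterns of consecutive prime arguments.** -/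
theorem result (N B E s C D d A : ℕ) (η δ ε : ℝ) (hη : 0 < η) (hδ : 0 < δ) (hε : 0 < ε) (hs1 : 1 ≤ s)
    (hs : (B : ℝ) + 5 + (2 * E + 1) * (N + 1) + 4 * (E + 1) < s * (η / 8)) (hd : 2 * s * (N + 1) ≤ d) :
    ∃ X₀ : ℕ, ∀ X, X₀ ≤ X → ∀ z : ℕ, Real.log X ^ ((C + E + 1) * d) ≤ z → (z : ℝ) ≤ Real.log X ^ A →
    ∀ m : ℕ, (m : ℝ) ≤ Real.log X ^ E →
    ∀ (F : Fin m → Polynomial ℤ) (Z : Fin m → Fin d → ℤ) (Y : Fin m → Fin d → ℕ), (∀ i, (F i).natDegree ≤ D) →
    (∀ i j, (X : ℝ) / Real.log X ^ C ≤ Y i j) →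
    (∀ c ∈ Arrays Z Y, ∀ i, ∀ k : ℕ, 1 ≤ k → (k : ℝ) ≤ Real.log X ^ E →
      (X : ℝ) / Real.log X ^ C ≤ value (F i) (c i) k ∧ (value (F i) (c i) k : ℝ) ≤ X * Real.log X ^ C) →
    (((Arrays Z Y).filter (fun c => ¬ Regular N E η δ ε z X F c)).card : ℝ) ≤ (Arrays Z Y).card / Real.log X ^ B := by
  have hs' : ((B + 1 + (2 * E + 1) * (N + 1) + 4 * (E + 1) : ℕ) : ℝ) + 4 < s * (η / 8) := by
    push_cast
    linarith
  obtain ⟨ε', hε'⟩ : ∃ ε' : ℝ, ε' = min ε (1 / 2) := ⟨_, rfl⟩
  have hε'0 : 0 < ε' := by rw [hε']; positivity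
  have hε'1 : ε' ≤ ε := by rw [hε']; exact min_le_left _ _
  have hε'2 : ε' ≤ 1 / 2 := by rw [hε']; exact min_le_right _ _
  obtain ⟨X0, hX0⟩ := eventually_atTop.1 ((all_reg (N + 1) B E s C A D d η hη hs1 hs' hd (min ε' 1 / 4) (by positivity)).and
    ((reg_exact N E A η δ ε' hη hδ hε'0).and (ev_log_ge 1)))
  refine ⟨X0, ?_⟩
  intro X hX z hz1 hz2 m hm F Z Y hF hY hval
  obtain ⟨h1, h2, hL⟩ := hX0 X hX
  have hL0 : 0 < Real.log (X : ℝ) := by linarith
  have hz : 1 ≤ z := by
    have h3 : (1 : ℝ) ≤ z := le_trans (one_le_pow₀ hL) hz1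
    exact_mod_cast h3
  rw [arrays_eq] at hval ⊢
  by_cases hne : (BA Z Y).Nonempty
  swap
  · rw [Finset.not_nonempty_iff_eq_empty] at hne
    rw [hne]
    simp
  obtain ⟨c0, hc0⟩ := hne
  refine le_trans ?_ (h1 z hz1 hz2 m hm F Z Y hF hY (by
    intro i c hc k hk1 hk2
    have hc' : Function.update c0 i c ∈ BA Z Y := by
      unfold BA at hc0 ⊢
      rw [Fintype.mem_piFinset] at hc0 ⊢
      intro i'
      by_cases hi : i' = i
      · subst hi
        rw [Function.update_self]
        exact hc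
      · rw [Function.update_of_ne hi]
        exact hc0 i'
    have h3 := hval _ hc' i k hk1 hk2
    rw [Function.update_self] at h3
    have h4 : evm (fun k => (F i).eval (k : ℤ)) 1 c k = value (F i) c k := by
      unfold evm value
      rw [one_mul]
    rw [h4]
    exact h3))
  exact_mod_cast card_le_card (fun c hc => by
    rw [mem_filter] at hc ⊢
    refine ⟨hc.1, ?_⟩
    intro hreg
    apply hc.2
    intro S b q a h hS1 hSN hq
    refine ⟨?_, ?_⟩
    · intro hpts hh
      have h3 := hreg S b q a h hS1 (by omega) hq hpts hh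
      rw [cnt_eq, sg_eq] at h3
      have hh0 : (0 : ℝ) < h := lt_of_lt_of_le (Real.rpow_pos_of_pos hL0 _) hh
      obtain ⟨G, hG⟩ : ∃ G, G = singular F c S b q z * (h / Real.log X ^ S.card) := ⟨_, rfl⟩
      rw [← hG] at h3 ⊢
      have hG0 : 0 ≤ G := by
        rw [hG]
        exact mul_nonneg (sgF_nonneg F c S b q z) (by positivity)
      have h4 : min ε' 1 / 4 ≤ ε' := by
        have h5 := min_le_left ε' 1
        linarith
      have h5 : |(constellations F c S b q a h : ℝ) - G| ≤ ε' * G := h3.trans (mul_le_mul_of_nonneg_right h4 hG0)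
      refine ⟨h5.trans (mul_le_mul_of_nonneg_right hε'1 hG0), ?_⟩
      intro hpos
      have hs := sing_pos F c S b q z hpos
      have hGp : 0 < G := by rw [hG]; positivity
      have h6 := pos_of_main _ ε' G hε'2 hGp h5
      unfold constellations at h6
      rw [card_pos] at h6
      obtain ⟨k, hk⟩ := h6
      rw [mem_filter, mem_Ioc] at hk
      exact ⟨k, hk.1.1, hk.1.2, hk.2⟩
    · intro J R hSJ hJR hpts hh
      have h5 := h2 z hz hz2 m d F c hreg J R S b q a h hS1 hSN hSJ hJR hq hpts hh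
      rw [ex_eq, sg_eq] at h5
      have hh0 : (0 : ℝ) < h := lt_of_lt_of_le (Real.rpow_pos_of_pos hL0 _) hh
      obtain ⟨G, hG⟩ : ∃ G, G = singular F c S b q z * (h / Real.log X ^ S.card) := ⟨_, rfl⟩
      rw [← hG] at h5 ⊢
      have hG0 : 0 ≤ G := by
        rw [hG]
        exact mul_nonneg (sgF_nonneg F c S b q z) (by positivity)
      refine ⟨h5.trans (mul_le_mul_of_nonneg_right hε'1 hG0), ?_⟩
      intro hpos
      have hs := sing_pos F c S b q z hpos
      have hGp : 0 < G := by rw [hG]; positivity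
      have h6 := pos_of_main _ ε' G hε'2 hGp h5
      unfold patterns at h6
      rw [card_pos] at h6
      obtain ⟨k, hk⟩ := h6
      rw [mem_filter, mem_Ioc] at hk
      refine ⟨k, hk.1.1, hk.1.2, ?_⟩
      intro i hi r hr
      exact hk.2 (i, r) (mem_product.2 ⟨hi, mem_range.2 (by omega)⟩))

end Pool.Agent.Results.MP_485179_nt.ValuesOfRandomPolynomials
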